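import Mathlib
import Pool.Graph.R_pool_sql_team_seeded_620a6dc7.Helper784WE.B2a
import Pool.Graph.R_pool_sql_team_seeded_620a6dc7.Helper784WE.Spec

/-!
# Coarsely embeddable groups contain no weakly embedded expander
-/

set_option autoImplicit false

open Finset
open scoped Classical

namespace Pool.Agent.KS6_5.WE

open Pool.Agent.Helper784WE

variable {V : Type} [Fintype V]

theorem double_le (f : V → ℝ) (m : ℝ) :
    ∑ x, ∑ y, (f x - f y) ^ 2 ≤ 2 * Fintype.card V * ∑ x, (f x - m) ^ 2 := by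
  obtain ⟨g, hg⟩ : ∃ g : V → ℝ, ∀ x, g x = f x - m := ⟨_, fun _ => rfl⟩
  simp_rw [← hg]
  have h1 : ∀ x, ∑ y, (f x - f y) ^ 2 = Fintype.card V * g x ^ 2 + ∑ y, g y ^ 2
      - 2 * g x * ∑ y, g y := by
    intro x
    have : ∀ y, (f x - f y) ^ 2 = g x ^ 2 + g y ^ 2 - 2 * g x * g y := fun y => by
      rw [hg, hg]; ring
    simp_rw [this, sum_sub_distrib, sum_add_distrib, sum_const, card_univ, nsmul_eq_mul,
      ← mul_sum]
  simp_rw [h1, sum_sub_distrib, sum_add_distrib, sum_const, card_univ, nsmul_eq_mul, ← mul_sum,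
    ← sum_mul, ← mul_sum]
  nlinarith [sq_nonneg (∑ x, g x)]

theorem poincR [Nonempty V] (Gr : SimpleGraph V) {D : ℕ} {ε : ℝ} (hε : 0 < ε)
    (h : IsExp Gr D ε) (f : V → ℝ) :
    ε ^ 2 * ∑ x, ∑ y, (f x - f y) ^ 2 ≤ 8 * (D + 1) * Fintype.card V *
      ∑ x, ∑ y, if Gr.Adj x y then (f x - f y) ^ 2 else 0 := by
  obtain ⟨m, hm⟩ := B2.poinc Gr hε h f
  have h1 := double_le f m
  have h2 : (0 : ℝ) ≤ Fintype.card V := Nat.cast_nonneg _
  have h3 := mul_le_mul_of_nonneg_left h1 (sq_nonneg ε)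
  have h4 := mul_le_mul_of_nonneg_left hm (mul_nonneg (zero_le_two : (0 : ℝ) ≤ 2) h2)
  refine h3.trans ?_
  calc ε ^ 2 * (2 * Fintype.card V * ∑ x, (f x - m) ^ 2)
      = 2 * Fintype.card V * (ε ^ 2 * ∑ x, (f x - m) ^ 2) := by ring
    _ ≤ _ := h4
    _ = _ := by ring

theorem poincH [Nonempty V] {H : Type} [NormedAddCommGroup H] [InnerProductSpace ℝ H]
    (Gr : SimpleGraph V) {D : ℕ} {ε : ℝ} (hε : 0 < ε) (h : IsExp Gr D ε) (u : V → H) :
    ε ^ 2 * ∑ x, ∑ y, ‖u x - u y‖ ^ 2 ≤ 8 * (D + 1) * Fintype.card V *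
      ∑ x, ∑ y, if Gr.Adj x y then ‖u x - u y‖ ^ 2 else 0 := by
  set S : Submodule ℝ H := Submodule.span ℝ (Set.range u) with hS
  have : FiniteDimensional ℝ S := FiniteDimensional.span_of_finite ℝ (Set.finite_range u)
  let b := stdOrthonormalBasis ℝ S
  let w : V → S := fun x => ⟨u x, Submodule.subset_span ⟨x, rfl⟩⟩
  have hn : ∀ x y, ‖u x - u y‖ ^ 2 = ∑ i, (inner ℝ (b i) (w x) - inner ℝ (b i) (w y)) ^ 2 := by
    intro x y
    have h1 := b.sum_sq_norm_inner_right (w x - w y)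
    have h2 : ‖w x - w y‖ = ‖u x - u y‖ := rfl
    rw [h2] at h1
    rw [← h1]
    refine sum_congr rfl fun i _ => ?_
    rw [inner_sub_right, Real.norm_eq_abs, sq_abs]
  have hL : ∑ x, ∑ y, ‖u x - u y‖ ^ 2 =
      ∑ i, ∑ x, ∑ y, (inner ℝ (b i) (w x) - inner ℝ (b i) (w y)) ^ 2 := by
    simp_rw [hn]
    rw [sum_comm]
    rw [sum_congr rfl (fun x _ => sum_comm), sum_comm]
    refine sum_congr rfl fun i _ => ?_
    rw [sum_comm]
  have hR : (∑ x, ∑ y, if Gr.Adj x y then ‖u x - u y‖ ^ 2 else 0) =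
      ∑ i, ∑ x, ∑ y, if Gr.Adj x y then
        (inner ℝ (b i) (w x) - inner ℝ (b i) (w y)) ^ 2 else 0 := by
    have : ∀ x y, (if Gr.Adj x y then ‖u x - u y‖ ^ 2 else 0) =
        ∑ i, if Gr.Adj x y then (inner ℝ (b i) (w x) - inner ℝ (b i) (w y)) ^ 2 else 0 := by
      intro x y
      split_ifs
      · exact hn x y
      · simp
    simp_rw [this]
    rw [sum_congr rfl (fun x _ => sum_comm), sum_comm]
  rw [hL, hR, mul_sum, mul_sum]
  exact sum_le_sum fun i _ => poincR Gr hε h fun x => inner ℝ (b i) (w x)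

/-- A group that embeds coarsely into a real Hilbert space has the concentration property. -/
theorem conc_of_cemb {G : Type} [Group G] (hG : CEmb G) : Conc G := by
  obtain ⟨H, _, _, _, f, hf1, hf2⟩ := hG
  intro T D ε hε
  obtain ⟨C, hC⟩ := hf1 T
  set A : ℝ := 8 * (D + 1) * (D * C ^ 2) / ε ^ 2 with hA
  have hA0 : 0 ≤ A := by positivity
  obtain ⟨T', hT'⟩ := hf2 (Real.sqrt (2 * A))
  refine ⟨1 / (2 * (T'.card + 1)), by positivity, ?_⟩
  intro V _ _ Gr hexp g hg
  have hN : (0 : ℝ) < Fintype.card V := by exact_mod_cast Fintype.card_pos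
  obtain ⟨N, hNdef⟩ : ∃ N : ℝ, N = Fintype.card V := ⟨_, rfl⟩
  rw [← hNdef] at hN
  have hE : ∑ x, ∑ y, (if Gr.Adj x y then ‖f (g x) - f (g y)‖ ^ 2 else 0) ≤ N * (D * C ^ 2) := by
    have h1 : ∀ x, ∑ y, (if Gr.Adj x y then ‖f (g x) - f (g y)‖ ^ 2 else 0) ≤ D * C ^ 2 := by
      intro x
      have h2 : ∀ y, (if Gr.Adj x y then ‖f (g x) - f (g y)‖ ^ 2 else 0) ≤
          if Gr.Adj x y then C ^ 2 else 0 := by
        intro y
        split_ifs with hxy
        · have h3 := hC (g x) _ (hg x y hxy)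
          rw [mul_inv_cancel_left] at h3
          exact pow_le_pow_left₀ (norm_nonneg _) h3 2
        · exact le_refl _
      refine (sum_le_sum fun y _ => h2 y).trans ?_
      rw [← sum_filter, sum_const, nsmul_eq_mul]
      exact mul_le_mul_of_nonneg_right (by exact_mod_cast hexp.deg x) (sq_nonneg C)
    refine (sum_le_sum fun x _ => h1 x).trans ?_
    rw [sum_const, card_univ, nsmul_eq_mul, ← hNdef]
  have hP := poincH Gr hε hexp (fun x => f (g x))
  rw [← hNdef] at hP
  have hS : ∑ x, ∑ y, ‖f (g x) - f (g y)‖ ^ 2 ≤ N * (N * A) := by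
    have h1 : 8 * ((D : ℝ) + 1) * N *
        (∑ x, ∑ y, (if Gr.Adj x y then ‖f (g x) - f (g y)‖ ^ 2 else 0)) ≤
        8 * (D + 1) * N * (N * (D * C ^ 2)) :=
      mul_le_mul_of_nonneg_left hE (by positivity)
    have h2 := hP.trans h1
    have h3 : 8 * ((D : ℝ) + 1) * N * (N * (D * C ^ 2)) = ε ^ 2 * (N * (N * A)) := by
      rw [hA]
      field_simp
    rw [h3] at h2
    exact le_of_mul_le_mul_left h2 (by positivity)
  by_contra hcon
  push Not at hcon
  have h1 : ∀ x, 2 * ((univ.filter (fun y => (g x)⁻¹ * g y ∈ T')).card : ℝ) < N := by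
    intro x
    have h2 : univ.filter (fun y => (g x)⁻¹ * g y ∈ T') ⊆
        T'.biUnion (fun t => univ.filter (fun y => g y = g x * t)) := by
      intro y hy
      rw [mem_filter] at hy
      rw [mem_biUnion]
      refine ⟨_, hy.2, ?_⟩
      rw [mem_filter, mul_inv_cancel_left]
      exact ⟨mem_univ _, rfl⟩
    have h3 : ((univ.filter (fun y => (g x)⁻¹ * g y ∈ T')).card : ℝ) ≤
        ∑ t ∈ T', ((univ.filter (fun y => g y = g x * t)).card : ℝ) := by
      exact_mod_cast (card_le_card h2).trans card_biUnion_le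
    have h4 : ∑ t ∈ T', ((univ.filter (fun y => g y = g x * t)).card : ℝ) ≤
        ∑ t ∈ T', 1 / (2 * ((T'.card : ℝ) + 1)) * N := by
      refine sum_le_sum fun t _ => ?_
      rw [hNdef]
      exact (hcon (g x * t)).le
    rw [sum_const, nsmul_eq_mul] at h4
    have h5 : 2 * ((T'.card : ℝ) * (1 / (2 * ((T'.card : ℝ) + 1)) * N)) < N := by
      have : 2 * ((T'.card : ℝ) * (1 / (2 * ((T'.card : ℝ) + 1)) * N)) =
          (T'.card : ℝ) / ((T'.card : ℝ) + 1) * N := by
        field_simp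
      rw [this]
      have h6 : (T'.card : ℝ) / ((T'.card : ℝ) + 1) < 1 := by
        rw [div_lt_one (by positivity)]
        linarith
      nlinarith
    linarith
  have h2 : ∀ x, N * A < ∑ y, ‖f (g x) - f (g y)‖ ^ 2 := by
    intro x
    set B := univ.filter (fun y => ¬ (g x)⁻¹ * g y ∈ T') with hB
    have h3 : (B.card : ℝ) = N - (univ.filter (fun y => (g x)⁻¹ * g y ∈ T')).card := by
      have h4 := card_filter_add_card_filter_not (s := (univ : Finset V))
        (fun y => (g x)⁻¹ * g y ∈ T')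
      rw [card_univ] at h4
      have h5 : ((univ.filter (fun y => (g x)⁻¹ * g y ∈ T')).card : ℝ) + B.card = N := by
        rw [hNdef, hB]
        exact_mod_cast h4
      linarith
    have h4 : N < 2 * (B.card : ℝ) := by
      rw [h3]
      linarith [h1 x]
    have hBne : B.Nonempty := by
      rw [← card_pos]
      have : (0 : ℝ) < B.card := by linarith
      exact_mod_cast this
    have h5 : ∀ y ∈ B, 2 * A < ‖f (g x) - f (g y)‖ ^ 2 := by
      intro y hy
      rw [hB, mem_filter] at hy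
      have h6 : Real.sqrt (2 * A) < ‖f (g x) - f (g y)‖ := by
        by_contra hle
        push Not at hle
        exact hy.2 (hT' _ _ hle)
      have h7 := pow_lt_pow_left₀ h6 (Real.sqrt_nonneg _) two_ne_zero
      rwa [Real.sq_sqrt (by positivity)] at h7
    have h6 : ∑ y ∈ B, 2 * A < ∑ y ∈ B, ‖f (g x) - f (g y)‖ ^ 2 := sum_lt_sum_of_nonempty hBne h5
    have h7 : ∑ y ∈ B, ‖f (g x) - f (g y)‖ ^ 2 ≤ ∑ y, ‖f (g x) - f (g y)‖ ^ 2 :=
      sum_le_sum_of_subset_of_nonneg (subset_univ _) fun _ _ _ => sq_nonneg _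
    rw [sum_const, nsmul_eq_mul] at h6
    nlinarith
  have h3 : ∑ x : V, N * A < ∑ x, ∑ y, ‖f (g x) - f (g y)‖ ^ 2 :=
    sum_lt_sum_of_nonempty univ_nonempty fun x _ => h2 x
  rw [sum_const, card_univ, nsmul_eq_mul, ← hNdef] at h3
  linarith

/-- `G` contains a weakly embedded expander: there are finite graphs `X m` with uniformly bounded
degrees, numbers of vertices tending to infinity and Cheeger constants bounded below by a positive
constant, and maps `φ m` of their vertex sets to `G` that send neighbours `u`, `v` to elements with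
`(φ m u)⁻¹ * φ m v` in one finite set `T` (for finitely generated `G` this means that the maps are
uniformly Lipschitz for the word metric) such that the proportion of the vertices in the largest
fibre tends to zero. -/
def ContainsWeakExpander (G : Type) [Group G] : Prop :=
  ∃ (V : ℕ → Type) (_ : ∀ m, Fintype (V m)) (X : ∀ m, SimpleGraph (V m)) (D : ℕ) (T : Finset G)
    (ε : ℝ) (φ : ∀ m, V m → G),
    0 < ε ∧ Filter.Tendsto (fun m => Fintype.card (V m)) Filter.atTop Filter.atTop ∧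
    (∀ m v, (univ.filter (fun u => (X m).Adj v u)).card ≤ D) ∧
    (∀ m (A : Finset (V m)), 2 * A.card ≤ Fintype.card (V m) → ε * A.card ≤
      ((univ.filter (fun p : V m × V m => p.1 ∈ A ∧ p.2 ∉ A ∧ (X m).Adj p.1 p.2)).card : ℝ)) ∧
    (∀ m u v, (X m).Adj u v → (φ m u)⁻¹ * φ m v ∈ T) ∧
    ∀ δ : ℝ, 0 < δ → ∃ M : ℕ, ∀ m : ℕ, M ≤ m → ∀ x : G,
      ((univ.filter (fun v => φ m v = x)).card : ℝ) ≤ δ * Fintype.card (V m)

theorem conc_iff {G : Type} [Group G] : Conc G ↔ ¬ ContainsWeakExpander G := by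
  constructor
  · rintro hc ⟨V, _, X, D, T, ε, φ, hε, hN, hdeg, hch, hlip, hfib⟩
    obtain ⟨δ, hδ, hcδ⟩ := hc T D ε hε
    obtain ⟨M, hM⟩ := hfib (δ / 2) (by positivity)
    obtain ⟨m, hm1, hm2⟩ : ∃ m, M ≤ m ∧ 1 ≤ Fintype.card (V m) := by
      have h1 := (Filter.tendsto_atTop.mp hN 1).and (Filter.eventually_ge_atTop M)
      obtain ⟨m, hm⟩ := h1.exists
      exact ⟨m, hm.2, hm.1⟩
    have hne : Nonempty (V m) := Fintype.card_pos_iff.1 (by omega)
    obtain ⟨x, hx⟩ := hcδ (V m) (X m) ⟨hdeg m, fun A hA => hch m A hA⟩ (φ m) (hlip m)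
    have h5 := hM m hm1 x
    have h7 : (0 : ℝ) < Fintype.card (V m) := by exact_mod_cast hm2
    have h8 := hx.trans h5
    nlinarith
  · intro h
    by_contra hc
    apply h
    unfold Conc at hc
    push Not at hc
    obtain ⟨T, D, ε, hε, hc⟩ := hc
    choose V hF hne X hexp φ hφ hfib using fun m : ℕ => hc (1 / ((m : ℝ) + 1)) (by positivity)
    have hpos : ∀ m : ℕ, (0 : ℝ) < Fintype.card (V m) := fun m => by
      have := hne m
      exact_mod_cast Fintype.card_pos
    refine ⟨V, hF, X, D, T, ε, φ, hε, ?_, fun m v => (hexp m).deg v,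
      fun m A hA => (hexp m).cheeger A hA, hφ, ?_⟩
    · refine Filter.tendsto_atTop_mono (fun m => ?_) Filter.tendsto_id
      obtain ⟨v⟩ := hne m
      have h1 := hfib m (φ m v)
      have h2 : (1 : ℝ) ≤ ((univ.filter (fun w => φ m w = φ m v)).card : ℝ) := by
        have : 0 < (univ.filter (fun w => φ m w = φ m v)).card :=
          card_pos.2 ⟨v, mem_filter.2 ⟨mem_univ _, rfl⟩⟩
        exact_mod_cast this
      have h3 : (1 : ℝ) < 1 / ((m : ℝ) + 1) * Fintype.card (V m) := lt_of_le_of_lt h2 h1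
      rw [one_div, ← div_eq_inv_mul, lt_div_iff₀ (by positivity), one_mul] at h3
      have h4 : ((m : ℕ) : ℝ) < Fintype.card (V m) := by linarith
      exact_mod_cast h4.le
    · intro δ hδ
      obtain ⟨M, hM⟩ := exists_nat_one_div_lt hδ
      refine ⟨M, fun m hm x => (hfib m x).le.trans ?_⟩
      refine mul_le_mul_of_nonneg_right (le_trans ?_ hM.le) (hpos m).le
      apply one_div_le_one_div_of_le (by positivity)
      have : (M : ℝ) ≤ m := by exact_mod_cast hm
      linarith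

end Pool.Agent.KS6_5.WE
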